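import Pool.Agent.PVD.StmtsG

/-!
# Squad PVD, row PHI: the hyperplane of sum zero
-/

set_option autoImplicit false

open MeasureTheory Metric Set Filter Topology

namespace PVD.H24

open PV PV3 PVD

theorem phi : PHIStmt := by
  intro n
  let v : E (n + 1) := WithLp.toLp 2 (fun _ => (1 : ℝ))
  have hv1 : ∀ i, v i = 1 := fun _ => rfl
  have hv : v ≠ 0 := by
    intro h
    have h1 := hv1 0
    rw [h] at h1
    exact zero_ne_one h1
  have hfr : Fact (Module.finrank ℝ (E (n + 1)) = n + 1) := ⟨by simp⟩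
  let b : OrthonormalBasis (Fin n) ℝ (Submodule.span ℝ {v})ᗮ :=
    OrthonormalBasis.fromOrthogonalSpanSingleton n hv
  let φ : E n →ₗᵢ[ℝ] E (n + 1) :=
    ((Submodule.span ℝ {v})ᗮ).subtypeₗᵢ.comp b.repr.symm.toLinearIsometry
  have hin : ∀ y : E (n + 1), inner ℝ v y = ∑ i, y i := by
    intro y
    rw [PiLp.inner_apply]
    refine Finset.sum_congr rfl fun i _ => ?_
    rw [hv1]
    simp
  refine ⟨φ, ⟨fun x => ?_, fun y hy => ?_⟩⟩
  · rw [← hin]
    have h1 : φ x ∈ (Submodule.span ℝ {v})ᗮ := (b.repr.symm x).2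
    exact Submodule.mem_orthogonal_singleton_iff_inner_right.1 h1
  · have h1 : y ∈ (Submodule.span ℝ {v})ᗮ := by
      rw [Submodule.mem_orthogonal_singleton_iff_inner_right, hin, hy]
    refine ⟨b.repr ⟨y, h1⟩, ?_⟩
    show ((b.repr.symm (b.repr ⟨y, h1⟩) : (Submodule.span ℝ {v})ᗮ) : E (n + 1)) = y
    rw [LinearIsometryEquiv.symm_apply_apply]

end PVD.H24
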