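import Pool.Agent.PVD.StmtsG

/-!
# Squad PVD, row SHR: change of variables for oblique prisms
-/

set_option autoImplicit false

open MeasureTheory Metric Set Filter Topology

namespace PVD.H24

open PV PV3 PVD

variable {n : ℕ}

/-- the functional `x ↦ ⟨x, w⟩` -/
noncomputable def fn (w : E n) : E n →ₗ[ℝ] ℝ where
  toFun x := inner ℝ x w
  map_add' x y := inner_add_left x y w
  map_smul' r x := by
    rw [inner_smul_left]; simp

theorem fn_apply (w x : E n) : fn w x = inner ℝ x w := rfl

theorem ww (w : E n) (hw : ‖w‖ = 1) : inner ℝ w w = (1 : ℝ) := by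
  rw [real_inner_self_eq_norm_sq, hw]; norm_num

/-- the linear part of the change of variables -/
noncomputable def lin (u w : E n) : E n →ₗ[ℝ] E n :=
  (LinearMap.transvection ((inner ℝ u w : ℝ)⁻¹ • fn w - fn u) u).comp
    (LinearMap.transvection (fn w) (u - w))

theorem lin_det (u w : E n) (hu : ‖u‖ = 1) (hw : ‖w‖ = 1) (h : 0 < (inner ℝ u w : ℝ)) :
    LinearMap.det (lin u w) = inner ℝ u w := by
  unfold lin
  rw [LinearMap.det_comp, LinearMap.transvection.det, LinearMap.transvection.det,
    LinearMap.sub_apply, LinearMap.smul_apply, fn_apply, fn_apply, fn_apply, inner_sub_left,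
    ww w hw, ww u hu, smul_eq_mul, inv_mul_cancel₀ h.ne']
  ring

theorem lin_apply (u w y : E n) (hu : ‖u‖ = 1) (hw : ‖w‖ = 1) (h : 0 < (inner ℝ u w : ℝ)) :
    lin u w y = proj u (y - (inner ℝ y w : ℝ) • w) + (inner ℝ y w : ℝ) • u := by
  unfold lin proj
  rw [LinearMap.comp_apply, LinearMap.transvection.apply, LinearMap.transvection.apply,
    LinearMap.sub_apply, LinearMap.smul_apply, fn_apply, fn_apply, fn_apply]
  have e1 : (inner ℝ (y + (inner ℝ y w : ℝ) • (u - w)) w : ℝ) =
      inner ℝ y w * inner ℝ u w := by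
    rw [inner_add_left, inner_smul_left, inner_sub_left, ww w hw]
    simp only [conj_trivial]
    ring
  have e2 : (inner ℝ (y + (inner ℝ y w : ℝ) • (u - w)) u : ℝ) =
      inner ℝ y u + inner ℝ y w * (1 - inner ℝ w u) := by
    rw [inner_add_left, inner_smul_left, inner_sub_left, ww u hu]
    simp only [conj_trivial]
  have e3 : (inner ℝ (y - (inner ℝ y w : ℝ) • w) u : ℝ) =
      inner ℝ y u - inner ℝ y w * inner ℝ w u := by
    rw [inner_sub_left, inner_smul_left]
    simp only [conj_trivial]
  rw [e1, e2, e3, smul_eq_mul]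
  have e4 : (inner ℝ u w : ℝ)⁻¹ * (inner ℝ y w * inner ℝ u w) = inner ℝ y w := by
    field_simp
  rw [e4, smul_sub]
  module

theorem proj_proj (u z : E n) (c : ℝ) (hu : ‖u‖ = 1) : proj u (proj u z + c • u) = proj u z := by
  unfold proj
  have e1 : (inner ℝ (z - (inner ℝ z u : ℝ) • u + c • u) u : ℝ) = c := by
    rw [inner_add_left, inner_sub_left, inner_smul_left, inner_smul_left, ww u hu]
    simp only [conj_trivial]
    ring
  rw [e1]
  abel

theorem Sw_compact (q : E n) (S : Set (E n)) (t : ℝ) (hS : IsCompact S) : IsCompact (Sw q S t) := by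
  have h1 : Sw q S t = (fun p : E n × ℝ => p.1 + p.2 • q) '' (S ×ˢ Icc (0 : ℝ) t) := by
    ext y
    constructor
    · rintro ⟨x, hx, s, hs, rfl⟩
      exact ⟨(x, s), ⟨hx, hs⟩, rfl⟩
    · rintro ⟨⟨x, s⟩, ⟨hx, hs⟩, rfl⟩
      exact ⟨x, hx, s, hs, rfl⟩
  rw [h1]
  refine (hS.prod isCompact_Icc).image ?_
  exact continuous_fst.add (continuous_snd.smul continuous_const)

theorem shr : SHRStmt := by
  intro n u w a S hu hw huw hS ha f _
  let L : E n →L[ℝ] E n := LinearMap.toContinuousLinearMap (lin u w)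
  let Ψ : E n → E n := fun y => L y + (a • proj u w - a • u)
  have hL : ∀ y, L y = proj u (y - (inner ℝ y w : ℝ) • w) + (inner ℝ y w : ℝ) • u :=
    fun y => lin_apply u w y hu hw huw
  have hΨ : ∀ y, Ψ y = proj u (y - ((inner ℝ y w : ℝ) - a) • w) + ((inner ℝ y w : ℝ) - a) • u := by
    intro y
    show L y + (a • proj u w - a • u) = _
    rw [hL]
    unfold proj
    simp only [inner_sub_left, inner_smul_left, conj_trivial]
    module
  have hdet : L.det = inner ℝ u w := by
    show LinearMap.det ((LinearMap.toContinuousLinearMap (lin u w) : E n →L[ℝ] E n) :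
      E n →ₗ[ℝ] E n) = _
    rw [LinearMap.coe_toContinuousLinearMap]
    exact lin_det u w hu hw huw
  have hinj : Function.Injective Ψ := by
    have h1 : Function.Injective (lin u w) := by
      have h2 : LinearMap.det (lin u w) ≠ 0 := by
        rw [lin_det u w hu hw huw]
        exact huw.ne'
      exact ((Module.End.isUnit_iff _).1
        ((LinearMap.isUnit_iff_isUnit_det _).2 (isUnit_iff_ne_zero.2 h2))).1
    intro y y' h
    exact h1 (add_right_cancel h)
  have himg : Ψ '' Sw w S 1 = Pr u S := by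
    have hpt : ∀ x ∈ S, ∀ s : ℝ, Ψ (x + s • w) = proj u x + s • u := by
      intro x hx s
      rw [hΨ]
      have e1 : (inner ℝ (x + s • w) w : ℝ) - a = s := by
        rw [inner_add_left, inner_smul_left, ww w hw, ha x hx]
        simp only [conj_trivial]
        ring
      rw [e1, add_sub_cancel_right]
    ext z
    constructor
    · rintro ⟨y, ⟨x, hx, s, hs, rfl⟩, rfl⟩
      exact ⟨x, hx, s, hs, hpt x hx s⟩
    · rintro ⟨x, hx, s, hs, rfl⟩
      exact ⟨x + s • w, ⟨x, hx, s, hs, rfl⟩, hpt x hx s⟩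
  have hmeas : MeasurableSet (Sw w S 1) := (Sw_compact w S 1 hS).measurableSet
  have hder : ∀ y ∈ Sw w S 1, HasFDerivWithinAt Ψ L (Sw w S 1) y := by
    intro y _
    exact (L.hasFDerivAt.add_const _).hasFDerivWithinAt
  have hcv := integral_image_eq_integral_abs_det_fderiv_smul volume hmeas hder hinj.injOn
    (fun y => f (proj u y))
  rw [himg] at hcv
  rw [hcv, hdet, abs_of_pos huw]
  rw [← integral_const_mul]
  refine setIntegral_congr_fun hmeas fun y _ => ?_
  show (inner ℝ u w : ℝ) • f (proj u (Ψ y)) = _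
  rw [hΨ, proj_proj u _ _ hu, smul_eq_mul]

end PVD.H24
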